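import Pool.Agent.W841.PK.ChkS

/-!
Project PK: soundness of the window sums.
-/

set_option autoImplicit false

namespace W374.PK.CBar

open Finset W841.PK.Chk
open W841.PK hiding dg

lemma fval_eq (fl fn fN fL fR i : ℕ) : fval fl fn fN fL fR i =
    if fl ≤ i then (if fl + fn ≤ i then fR else dg fN (i - fl)) else fL := by
  unfold fval
  simp only [Nat.ble_eq]

lemma fval_zero {fl fn fN fL fR : ℕ} (h : InvF fl fn fN fL fR) : fval fl fn fN fL fR 0 = fL := by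
  rw [fval_eq, if_neg]
  have := h.lo
  omega

lemma fval_le {fl fn fN fL fR : ℕ} (h : InvF fl fn fN fL fR) (i : ℕ) :
    fval fl fn fN fL fR i ≤ 2 ^ 40 :=
  (h.anti 0 i (Nat.zero_le _)).trans ((fval_zero h).trans_le h.le)

lemma fR_le {fl fn fN fL fR : ℕ} (h : InvF fl fn fN fL fR) : fR ≤ 2 ^ 40 := by
  have := fval_le h (fl + fn)
  rwa [fval_eq, if_pos (by omega), if_pos le_rfl] at this

/-- digits of the padded array -/
lemma dg_padF (hd : S_Dig) {fl fn fN fL fR : ℕ} (h : InvF fl fn fN fL fR) (i : ℕ) :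
    dg (padF fn fN fL fR) i =
      if i < fn + 896 then fval fl fn fN fL fR (fl - 448 + i) else 0 := by
  obtain ⟨d1, d2, -, -, d5, -, -, d8, d9⟩ := hd
  have hlo := h.lo
  have hfL : fL < 2 ^ 88 := lt_of_le_of_lt h.le (by norm_num)
  have hfR : fR < 2 ^ 88 := lt_of_le_of_lt (fR_le h) (by norm_num)
  have e1 : ∀ i, dg (2 ^ (88 * fn) * (fR * rep 448)) i =
      if i < fn then 0 else (if i - fn < 448 then fR else 0) := by
    intro i
    rw [d2, d5 _ _ _ hfR]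
  have e2 : ∀ i, dg (fN + 2 ^ (88 * fn) * (fR * rep 448)) i =
      if i < fn then dg fN i else (if i - fn < 448 then fR else 0) := by
    intro i
    rw [d1, e1]
    · by_cases hi : i < fn
      · rw [if_pos hi, if_pos hi, add_zero]
      · rw [if_neg hi, if_neg hi, d8 fN fn i h.lt (by omega), zero_add]
    · intro i
      rw [e1]
      by_cases hi : i < fn
      · rw [if_pos hi, add_zero]; exact d9 _ _
      · rw [if_neg hi, d8 fN fn i h.lt (by omega), zero_add]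
        split_ifs
        · exact hfR
        · positivity
  unfold padF
  rw [d1, d5 _ _ _ hfL, d2, e2]
  · rw [fval_eq]
    by_cases h1 : i < 448
    · rw [if_pos h1, if_pos h1, add_zero, if_pos (by omega), if_neg (by omega)]
    · rw [if_neg h1, if_neg h1, zero_add]
      by_cases h2 : i - 448 < fn
      · rw [if_pos h2, if_pos (by omega), if_pos (by omega), if_neg (by omega)]
        have e3 : fl - 448 + i - fl = i - 448 := by omega
        rw [e3]
      · rw [if_neg h2]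
        by_cases h3 : i - 448 - fn < 448
        · rw [if_pos h3, if_pos (by omega), if_pos (by omega), if_pos (by omega)]
        · rw [if_neg h3, if_neg (by omega)]
  · intro i
    rw [d5 _ _ _ hfL, d2]
    by_cases h1 : i < 448
    · rw [if_pos h1, if_pos h1, add_zero]; exact hfL
    · rw [if_neg h1, if_neg h1, zero_add]; exact d9 _ _

lemma dg_padF_le (hd : S_Dig) {fl fn fN fL fR : ℕ} (h : InvF fl fn fN fL fR) (i : ℕ) :
    dg (padF fn fN fL fR) i ≤ 2 ^ 40 := by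
  rw [dg_padF hd h]
  split_ifs
  · exact fval_le h _
  · positivity

/-- middle digit of the product of a window with a kernel -/
lemma mid (hd : S_Dig) (hm : S_DigMul) {P W J n : ℕ} (hn : 1 ≤ n) (hP : ∀ i, dg P i ≤ 2 ^ 40)
    (hW : W < 2 ^ (88 * n)) (hs : ∑ i ∈ range n, dg W i < 2 ^ 41) :
    dg ((P / 2 ^ (88 * J) % 2 ^ (88 * n)) * W) (n - 1) =
      ∑ i ∈ range n, dg W (n - 1 - i) * dg P (J + i) := by
  obtain ⟨-, -, d3, d4, -⟩ := hd
  have hX : ∀ i, dg (P / 2 ^ (88 * J) % 2 ^ (88 * n)) i = if i < n then dg P (i + J) else 0 := by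
    intro i
    rw [d4, d3]
  have h1 := hm (P / 2 ^ (88 * J) % 2 ^ (88 * n)) W n (2 ^ 40) (n - 1)
    (by
      intro i
      rw [hX]
      split_ifs
      · exact hP _
      · positivity) hW
    (by
      calc 2 ^ 40 * ∑ m ∈ range n, dg W m ≤ 2 ^ 40 * 2 ^ 41 := Nat.mul_le_mul_left _ hs.le
        _ < 2 ^ 88 := by norm_num)
  rw [h1, ← sum_range_reflect]
  refine sum_congr rfl fun i hi => ?_
  rw [mem_range] at hi
  rw [if_pos (by omega), hX, if_pos (by omega)]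
  congr 2
  omega

lemma FA_eq (hd : S_Dig) (hm : S_DigMul) {W P J q : ℕ} (hq : 1 ≤ q) (hP : ∀ i, dg P i ≤ 2 ^ 40)
    (hW : W < 2 ^ (88 * (56 * q))) (hs : ∑ i ∈ range (56 * q), dg W i < 2 ^ 41) :
    FA W P J q = ∑ i ∈ range (56 * q), dg W (56 * q - 1 - i) * dg P (J + i) :=
  mid hd hm (by omega) hP hW hs

lemma FB_eq (hd : S_Dig) (hm : S_DigMul) {V P J q : ℕ} (hP : ∀ i, dg P i ≤ 2 ^ 40)
    (hV : V < 2 ^ (88 * (56 * (q + 1)))) (hs : ∑ i ∈ range (56 * (q + 1)), dg V i < 2 ^ 41)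
    (hJ : 56 * (q + 1) ≤ J) :
    FB V P J q = ∑ i ∈ range (56 * (q + 1)), dg V i * dg P (J - 1 - i) := by
  unfold FB
  rw [mid hd hm (by omega) hP hV hs, ← sum_range_reflect]
  refine sum_congr rfl fun i hi => ?_
  rw [mem_range] at hi
  congr 2 <;> omega

lemma AF_anti {fl fn fN fL fR : ℕ} (h : InvF fl fn fN fL fR) : Antitone (AF fl fn fN fL fR) := by
  intro a b hab
  unfold AF
  refine div_le_div_of_nonneg_right ?_ (by positivity)
  exact_mod_cast h.anti _ _ (Int.toNat_le_toNat (by omega))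

lemma AF_mem {fl fn fN fL fR : ℕ} (h : InvF fl fn fN fL fR) (i : ℤ) :
    0 ≤ AF fl fn fN fL fR i ∧ AF fl fn fN fL fR i ≤ 1 := by
  unfold AF
  refine ⟨by positivity, ?_⟩
  rw [div_le_one (by positivity)]
  exact_mod_cast fval_le h _

/-- the real sum is bounded by the integer sum -/
lemma sum_bd {n : ℕ} {κ : ℝ} {CU w f : ℕ → ℕ} {F : ℕ → ℝ}
    (hc : ∀ i < n, cm κ i * 2 ^ 40 ≤ (CU i : ℝ)) (hw : ∀ i < n, w i = CU i)
    (hF : ∀ i < n, F i = (f i : ℝ) / 2 ^ 40) :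
    ∑ i ∈ range n, cm κ i * F i ≤ ((∑ i ∈ range n, w i * f i : ℕ) : ℝ) / 2 ^ 80 := by
  push_cast
  rw [sum_div]
  refine sum_le_sum fun i hi => ?_
  rw [mem_range] at hi
  rw [hF i hi, hw i hi]
  have h1 := hc i hi
  have h2 : (0 : ℝ) ≤ (f i : ℝ) := Nat.cast_nonneg _
  rw [mul_div_assoc', div_le_div_iff₀ (by positivity) (by positivity)]
  have h3 : cm κ i * (f i : ℝ) * 2 ^ 80 = (cm κ i * 2 ^ 40) * (f i : ℝ) * 2 ^ 40 := by ring
  rw [h3]
  exact mul_le_mul_of_nonneg_right (mul_le_mul_of_nonneg_right h1 h2) (by positivity)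

/-- the general bound of the upper part -/
lemma partA (hd : S_Dig) (hm : S_DigMul) (hp : S_Pl) {δ : ℝ} (hδ : 0 < δ)
    {fl fn fN fL fR : ℕ} (h : InvF fl fn fN fL fR) {j q W : ℕ} {κ : ℝ} {CU : ℕ → ℕ}
    (hq : 1 ≤ q) (hW : W < 2 ^ (88 * (56 * q))) (hs : ∑ i ∈ range (56 * q), dg W i < 2 ^ 41)
    (hc : ∀ i < 56 * q, cm κ i * 2 ^ 40 ≤ (CU i : ℝ))
    (hw : ∀ i < 56 * q, dg W (56 * q - 1 - i) = CU i)
    (h1 : fl ≤ j + 448) (h2 : j + 56 * q + 1 ≤ fl + fn + 448) :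
    ∑ i ∈ range (56 * q), cm κ i * pl δ (AF fl fn fN fL fR) (((((j : ℤ) - 65536 : ℤ) : ℝ) + i) * δ)
      ≤ ((FA W (padF fn fN fL fR) (j - (fl - 448)) q : ℕ) : ℝ) / 2 ^ 80 := by
  rw [FA_eq hd hm hq (dg_padF_le hd h) hW hs]
  refine sum_bd hc hw ?_
  intro i hi
  have hlo := h.lo
  have e1 : ((((j : ℤ) - 65536 : ℤ) : ℝ) + i) * δ = (((j : ℤ) - 65536 + i : ℤ) : ℝ) * δ := by
    push_cast; ring
  rw [e1, (hp δ hδ).1, dg_padF hd h, if_pos (by omega)]
  unfold AF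
  have e2 : ((j : ℤ) - 65536 + i + 65536).toNat = fl - 448 + (j - (fl - 448) + i) := by omega
  rw [e2]

lemma partB (hd : S_Dig) (hm : S_DigMul) (hp : S_Pl) {δ : ℝ} (hδ : 0 < δ)
    {fl fn fN fL fR : ℕ} (h : InvF fl fn fN fL fR) {j q V : ℕ} {κ : ℝ} {CU : ℕ → ℕ}
    (hV : V < 2 ^ (88 * (56 * (q + 1))))
    (hs : ∑ i ∈ range (56 * (q + 1)), dg V i < 2 ^ 41)
    (hc : ∀ i < 56 * (q + 1), cm κ i * 2 ^ 40 ≤ (CU i : ℝ))
    (hw : ∀ i < 56 * (q + 1), dg V i = CU i)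
    (h1 : fl + 56 * (q + 1) ≤ j + 448) (h2 : j + 1 ≤ fl + fn + 448) :
    ∑ i ∈ range (56 * (q + 1)), cm κ i *
        pl δ (AF fl fn fN fL fR) (((((j : ℤ) - 65536 : ℤ) : ℝ) - 1 - i) * δ)
      ≤ ((FB V (padF fn fN fL fR) (j - (fl - 448)) q : ℕ) : ℝ) / 2 ^ 80 := by
  rw [FB_eq hd hm (dg_padF_le hd h) hV hs (by have := h.lo; omega)]
  refine sum_bd hc hw ?_
  intro i hi
  have hlo := h.lo
  have e1 : ((((j : ℤ) - 65536 : ℤ) : ℝ) - 1 - i) * δ = (((j : ℤ) - 65536 - 1 - i : ℤ) : ℝ) * δ := by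
    push_cast; ring
  rw [e1, (hp δ hδ).1, dg_padF hd h, if_pos (by omega)]
  unfold AF
  have e2 : ((j : ℤ) - 65536 - 1 - i + 65536).toNat = fl - 448 + (j - (fl - 448) - 1 - i) := by omega
  rw [e2]

theorem cbar (hd : S_Dig) (hm : S_DigMul) (hc : S_TabC) (hw : S_TabW) (hp : S_Pl)
    (hs : S_SemBar) : S_CBar := by
  intro δ Y θ fl fn fN fL fR j q hδ hI hq h1 h2 h3 h4 h5
  obtain ⟨hNice, hmem, -⟩ := (hp δ hδ).2.2.2.1 (AF fl fn fN fL fR) (AF_anti hI) (AF_mem hI)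
  have hlo := hI.lo
  have key := hs (pl δ (AF fl fn fN fL fR)) δ Y θ q ((j : ℤ) - 65536) hδ hNice hmem h3 h4
    (by push_cast; exact h5)
  obtain ⟨c1, c2, c3, c4⟩ := hc
  obtain ⟨w1, w2, w3, w4, ⟨l1, l1', -⟩, ⟨l2, l2', -⟩, ⟨l3, l3', -⟩, ⟨l4, l4', -⟩,
    ⟨s1, s1', -⟩, ⟨s2, s2', -⟩, ⟨s3, s3', -⟩, ⟨s4, s4', -⟩⟩ := hw
  interval_cases q
  · have b := partB hd hm hp hδ hI (j := j) (q := 0) (V := VU1) (κ := 1 / 8)
      (CU := fun i => CU1.getD i 0) l1' s1' (fun i hi => (c1 i (by omega)).1)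
      (fun i hi => (w1 i (by omega)).2.1) h1 (by omega)
    have a : pl δ (AF fl fn fN fL fR) ((((j : ℤ) - 65536 : ℤ) : ℝ) * δ) =
        ((2 ^ 40 * dg (padF fn fN fL fR) (j - (fl - 448)) : ℕ) : ℝ) / 2 ^ 80 := by
      rw [(hp δ hδ).1, dg_padF hd hI, if_pos (by omega)]
      unfold AF
      have e2 : ((j : ℤ) - 65536 + 65536).toNat = fl - 448 + (j - (fl - 448)) := by omega
      rw [e2]
      push_cast
      ring
    have e1 : (1 : ℝ) / (8 * ((0 : ℕ) + 1)) = 1 / 8 := by norm_num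
    rw [if_pos rfl, a, e1] at key
    refine key.trans ?_
    simp only
    push_cast at b ⊢
    linarith
  · have a := partA hd hm hp hδ hI (j := j) (q := 1) (W := WU1) (κ := 1 / 8)
      (CU := fun i => CU1.getD i 0) le_rfl l1 s1 (fun i hi => (c1 i (by omega)).1)
      (fun i hi => (w1 i (by omega)).1) (by omega) (by omega)
    have b := partB hd hm hp hδ hI (j := j) (q := 1) (V := VU2) (κ := 1 / 16)
      (CU := fun i => CU2.getD i 0) l2' s2' (fun i hi => (c2 i (by omega)).1)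
      (fun i hi => (w2 i (by omega)).2.1) h1 (by omega)
    have e0 : (1 : ℝ) / (8 * ((1 : ℕ) : ℝ)) = 1 / 8 := by norm_num
    have e1 : (1 : ℝ) / (8 * (((1 : ℕ) : ℝ) + 1)) = 1 / 16 := by norm_num
    rw [if_neg one_ne_zero, e0, e1] at key
    refine key.trans ?_
    simp only
    push_cast at a b ⊢
    linarith
  · have a := partA hd hm hp hδ hI (j := j) (q := 2) (W := WU2) (κ := 1 / 16)
      (CU := fun i => CU2.getD i 0) (by norm_num) l2 s2 (fun i hi => (c2 i (by omega)).1)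
      (fun i hi => (w2 i (by omega)).1) (by omega) (by omega)
    have b := partB hd hm hp hδ hI (j := j) (q := 2) (V := VU3) (κ := 1 / 24)
      (CU := fun i => CU3.getD i 0) l3' s3' (fun i hi => (c3 i (by omega)).1)
      (fun i hi => (w3 i (by omega)).2.1) h1 (by omega)
    have e0 : (1 : ℝ) / (8 * ((2 : ℕ) : ℝ)) = 1 / 16 := by norm_num
    have e1 : (1 : ℝ) / (8 * (((2 : ℕ) : ℝ) + 1)) = 1 / 24 := by norm_num
    rw [if_neg two_ne_zero, e0, e1] at key
    refine key.trans ?_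
    simp only
    push_cast at a b ⊢
    linarith
  · have a := partA hd hm hp hδ hI (j := j) (q := 3) (W := WU3) (κ := 1 / 24)
      (CU := fun i => CU3.getD i 0) (by norm_num) l3 s3 (fun i hi => (c3 i (by omega)).1)
      (fun i hi => (w3 i (by omega)).1) (by omega) (by omega)
    have b := partB hd hm hp hδ hI (j := j) (q := 3) (V := VU4) (κ := 1 / 32)
      (CU := fun i => CU4.getD i 0) l4' s4' (fun i hi => (c4 i (by omega)).1)
      (fun i hi => (w4 i (by omega)).2.1) h1 (by omega)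
    have e0 : (1 : ℝ) / (8 * ((3 : ℕ) : ℝ)) = 1 / 24 := by norm_num
    have e1 : (1 : ℝ) / (8 * (((3 : ℕ) : ℝ) + 1)) = 1 / 32 := by norm_num
    rw [if_neg three_ne_zero, e0, e1] at key
    refine key.trans ?_
    simp only
    push_cast at a b ⊢
    linarith

end W374.PK.CBar
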