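import Pool.Agent.W841.PK.ChkS

/-!
Project PK: soundness of the warm-up.
-/

set_option autoImplicit false

namespace W374.PK.CWarm

open Finset W841.PK.Chk
open W841.PK hiding dg

lemma frc_eq {α : Type} (n : ℕ) (f : ℕ → α) : frc n f = f n := by cases n <;> rfl

/-- the exact distribution functions -/
noncomputable def Q (m : ℕ) (y : ℝ) : ℝ :=
  if m = 0 then (if y ≤ 0 then 1 else 0) else Ph (-y / √((m : ℝ) / 64))

lemma Q_mem (hg : S_Gauss) (m : ℕ) (y : ℝ) : 0 ≤ Q m y ∧ Q m y ≤ 1 := by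
  obtain ⟨-, -, -, -, h5, -⟩ := hg
  unfold Q
  split_ifs
  · norm_num
  · norm_num
  · exact ⟨(h5 _).1.le, (h5 _).2.le⟩

lemma Q_meas (hg : S_Gauss) (m : ℕ) : Measurable (Q m) := by
  obtain ⟨-, -, -, h4, -⟩ := hg
  by_cases hm : m = 0
  · have : Q m = fun y => if y ≤ 0 then 1 else 0 := by
      funext y; unfold Q; rw [if_pos hm]
    rw [this]
    exact Measurable.ite measurableSet_Iic measurable_const measurable_const
  · have : Q m = fun y => Ph (-y / √((m : ℝ) / 64)) := by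
      funext y; unfold Q; rw [if_neg hm]
    rw [this]
    exact h4.measurable.comp (by fun_prop)

lemma Q_succ (hc : S_GConv) (m : ℕ) (y : ℝ) : heat (Q m) (1 / 64) y = Q (m + 1) y := by
  obtain ⟨h1, h2, -⟩ := hc
  by_cases hm : m = 0
  · subst hm
    have e : Q 0 = fun x => if x ≤ 0 then 1 else 0 := by
      funext y; unfold Q; rw [if_pos rfl]
    rw [e]
    have := h1 (1 / 64) y (by norm_num)
    rw [this]
    unfold Q
    rw [if_neg (by norm_num)]
    norm_num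
  · have e : Q m = fun x => Ph (-x / √((m : ℝ) / 64)) := by
      funext y; unfold Q; rw [if_neg hm]
    rw [e]
    have hm0 : (0 : ℝ) < (m : ℝ) / 64 := by
      have : (0 : ℝ) < m := by exact_mod_cast Nat.pos_of_ne_zero hm
      positivity
    rw [h2 _ (1 / 64) y hm0 (by norm_num)]
    unfold Q
    rw [if_neg (Nat.succ_ne_zero m)]
    have e2 : (m : ℝ) / 64 + 1 / 64 = ((m + 1 : ℕ) : ℝ) / 64 := by push_cast; ring
    rw [e2]

lemma fval_eq (fl fn fN fL fR i : ℕ) : fval fl fn fN fL fR i =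
    if fl ≤ i then (if fl + fn ≤ i then fR else dg fN (i - fl)) else fL := by
  unfold fval
  simp only [Nat.ble_eq]

lemma gval_eq (gl gn gN i : ℕ) : gval gl gn gN i =
    if gl + gn ≤ i then 0 else dg gN (i - gl) := by
  unfold gval
  simp only [Nat.ble_eq]

lemma AF_anti {fl fn fN fL fR : ℕ} (h : InvF fl fn fN fL fR) : Antitone (AF fl fn fN fL fR) := by
  intro a b hab
  unfold AF
  refine div_le_div_of_nonneg_right ?_ (by positivity)
  exact_mod_cast h.anti _ _ (Int.toNat_le_toNat (by omega))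

lemma AF_mem {fl fn fN fL fR : ℕ} (h : InvF fl fn fN fL fR) (i : ℤ) :
    0 ≤ AF fl fn fN fL fR i ∧ AF fl fn fN fL fR i ≤ 1 := by
  unfold AF
  refine ⟨by positivity, ?_⟩
  rw [div_le_one (by positivity)]
  have h1 := h.anti 0 (i + 65536).toNat (Nat.zero_le _)
  have h2 : fval fl fn fN fL fR 0 = fL := by
    rw [fval_eq, if_neg]; have := h.lo; omega
  have h3 := h.le
  have : fval fl fn fN fL fR (i + 65536).toNat ≤ 2 ^ 40 := by omega
  exact_mod_cast this

lemma AG_anti {gl gn gN : ℕ} (h : InvG gl gn gN) : Antitone (AG gl gn gN) := by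
  intro a b hab
  unfold AG
  refine div_le_div_of_nonneg_right ?_ (by positivity)
  exact_mod_cast h.anti _ _ (Int.toNat_le_toNat (by omega))

lemma AG_mem {gl gn gN : ℕ} (h : InvG gl gn gN) (i : ℤ) :
    0 ≤ AG gl gn gN i ∧ AG gl gn gN i ≤ 1 := by
  unfold AG
  refine ⟨by positivity, ?_⟩
  rw [div_le_one (by positivity)]
  have : gval gl gn gN (i + 65536).toNat ≤ 2 ^ 40 := (h.anti 0 _ (Nat.zero_le _)).trans h.le
  exact_mod_cast this

lemma dg40 : dg (2 ^ 40) 0 = 2 ^ 40 := by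
  unfold dg
  norm_num

lemma fv0 (i : ℕ) : fval 65536 1 (2 ^ 40) (2 ^ 40) 0 i = if i ≤ 65536 then 2 ^ 40 else 0 := by
  rw [fval_eq]
  by_cases h1 : 65536 ≤ i
  · rw [if_pos h1]
    by_cases h2 : 65536 + 1 ≤ i
    · rw [if_pos h2, if_neg (by omega)]
    · have : i = 65536 := by omega
      subst this
      rw [if_neg h2, if_pos le_rfl, Nat.sub_self, dg40]
  · rw [if_neg h1, if_pos (by omega)]

lemma gv0 (i : ℕ) : gval 65535 1 (2 ^ 40) i = if i ≤ 65535 then 2 ^ 40 else 0 := by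
  rw [gval_eq]
  by_cases h1 : 65535 + 1 ≤ i
  · rw [if_pos h1, if_neg (by omega)]
  · have : i - 65535 = 0 := by omega
    rw [if_neg h1, if_pos (by omega), this, dg40]

lemma invF0 : InvF 65536 1 (2 ^ 40) (2 ^ 40) 0 := by
  refine ⟨le_rfl, by norm_num, by norm_num, ?_, le_rfl⟩
  intro i j hij
  rw [fv0, fv0]
  by_cases h : j ≤ 65536
  · rw [if_pos h, if_pos (by omega)]
  · rw [if_neg h]; exact Nat.zero_le _

lemma invG0 : InvG 65535 1 (2 ^ 40) := by
  refine ⟨le_rfl, by norm_num, by norm_num, ?_, ?_⟩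
  · intro i j hij
    rw [gv0, gv0]
    by_cases h : j ≤ 65535
    · rw [if_pos h, if_pos (by omega)]
    · rw [if_neg h]; exact Nat.zero_le _
  · rw [gv0, if_pos (Nat.zero_le _)]

/-- the inductive step, iterated -/
lemma steps (hg0 : S_Gauss) (hp : S_Pl) (hc : S_GConv) (hh : S_HeatC) (hf : S_StepF)
    (hg : S_StepG0) (k : ℕ → ℕ → ℕ → ℕ → ℕ → ℕ → ℕ → Bool) (l : List WHint) :
    ∀ (m fl fn fN fR gl gn gN : ℕ), m + l.length = 64 → InvF fl fn fN (2 ^ 40) fR →
      InvG gl gn gN → (∀ y, Q m y ≤ pl (1 / 256) (AF fl fn fN (2 ^ 40) fR) y) →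
      (∀ y, pl (1 / 256) (AG gl gn gN) y ≤ Q m y) → warm k l fl fn fN fR gl gn gN = true →
      ∃ (fl fn fN fR gl gn gN : ℕ), InvF fl fn fN (2 ^ 40) fR ∧ InvG gl gn gN ∧
        (∀ y, Q 64 y ≤ pl (1 / 256) (AF fl fn fN (2 ^ 40) fR) y) ∧
        (∀ y, pl (1 / 256) (AG gl gn gN) y ≤ Q 64 y) ∧ k fl fn fN fR gl gn gN = true := by
  have hδ : (0 : ℝ) < 1 / 256 := by norm_num
  have hvar : (32 * (1 / 256 : ℝ)) ^ 2 = 1 / 64 := by norm_num
  induction l with
  | nil =>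
    intro m fl fn fN fR gl gn gN hm hF hG h1 h2 h3
    have hm' : m = 64 := by simpa using hm
    subst hm'
    exact ⟨fl, fn, fN, fR, gl, gn, gN, hF, hG, h1, h2, h3⟩
  | cons w t ih =>
    obtain ⟨c, fn2, h, tr⟩ := w
    intro m fl fn fN fR gl gn gN hm hF hG h1 h2 h3
    have hm' : (m + 1) + t.length = 64 := by
      rw [List.length_cons] at hm; omega
    unfold warm warmStep at h3
    simp only [frc_eq, Bool.and_eq_true, Nat.ble_eq, Nat.beq_eq] at h3
    obtain ⟨⟨a1, a2, a3, a4, a5⟩, ⟨b1, b2, b3, b4, b5⟩, hk⟩ := h3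
    obtain ⟨hF2, hFb⟩ := hf (1 / 256) fl fn fN (2 ^ 40) fR (2 ^ 40) c fn2 hδ hF le_rfl a1 a2 a3
      a4 a5
    obtain ⟨hG2, hGb⟩ := hg (1 / 256) gl gn gN h tr hδ hG b1 b2 b3 b4 b5
    obtain ⟨nF1, nF2, LF, nF3⟩ := (hp (1 / 256) hδ).2.2.2.1 _ (AF_anti hF) (AF_mem hF)
    obtain ⟨nG1, nG2, LG, nG3⟩ := (hp (1 / 256) hδ).2.2.2.1 _ (AG_anti hG) (AG_mem hG)
    refine ih (m + 1) _ _ _ _ _ _ _ hm' hF2 hG2 ?_ ?_ hk
    · intro y
      have e1 := hFb 1 (by norm_num) y
      rw [hvar] at e1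
      have e2 := ((hh _ LF nF1 nF2 nF3).2.1 (1 / 64) y).2
      rw [min_eq_right e2] at e1
      refine le_trans ?_ e1
      rw [← Q_succ hc]
      exact hc.2.2 _ _ _ _ (Q_meas hg0 m) nF1.measurable (Q_mem hg0 m) nF2 h1
    · intro y
      have e1 := hGb y
      rw [hvar] at e1
      refine e1.trans ?_
      rw [← Q_succ hc]
      exact hc.2.2 _ _ _ _ nG1.measurable (Q_meas hg0 m) nG2 (Q_mem hg0 m) h2

theorem cwarm (hg0 : S_Gauss) (hp : S_Pl) (hc : S_GConv) (hh : S_HeatC) (hf : S_StepF)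
    (hg : S_StepG0) : S_CWarm := by
  intro k l hl hw
  have hδ : (0 : ℝ) < 1 / 256 := by norm_num
  obtain ⟨nF1, nF2, -⟩ := (hp (1 / 256) hδ).2.2.2.1 _ (AF_anti invF0) (AF_mem invF0)
  obtain ⟨nG1, nG2, -⟩ := (hp (1 / 256) hδ).2.2.2.1 _ (AG_anti invG0) (AG_mem invG0)
  have vF : pl (1 / 256) (AF 65536 1 (2 ^ 40) (2 ^ 40) 0) 0 = 1 := by
    have := (hp (1 / 256) hδ).1 (AF 65536 1 (2 ^ 40) (2 ^ 40) 0) 0
    rw [Int.cast_zero, zero_mul] at this
    rw [this]
    unfold AF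
    rw [fv0, if_pos (by norm_num)]
    norm_num
  have vG : pl (1 / 256) (AG 65535 1 (2 ^ 40)) 0 = 0 := by
    have := (hp (1 / 256) hδ).1 (AG 65535 1 (2 ^ 40)) 0
    rw [Int.cast_zero, zero_mul] at this
    rw [this]
    unfold AG
    rw [gv0, if_neg (by norm_num)]
    norm_num
  obtain ⟨fl, fn, fN, fR, gl, gn, gN, r1, r2, r3, r4, r5⟩ :=
    steps hg0 hp hc hh hf hg k l 0 65536 1 (2 ^ 40) 0 65535 1 (2 ^ 40) (by omega) invF0 invG0
      (by
        intro y
        unfold Q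
        rw [if_pos rfl]
        by_cases hy : y ≤ 0
        · rw [if_pos hy]
          exact vF.symm.le.trans (nF1 hy)
        · rw [if_neg hy]
          exact (nF2 y).1)
      (by
        intro y
        unfold Q
        rw [if_pos rfl]
        by_cases hy : y ≤ 0
        · rw [if_pos hy]
          exact (nG2 y).2
        · rw [if_neg hy]
          exact (nG1 (le_of_lt (not_le.1 hy))).trans_eq vG)
      hw
  have hQ : ∀ y, Q 64 y = Ph (-y) := by
    intro y
    unfold Q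
    rw [if_neg (by norm_num)]
    norm_num
  refine ⟨fl, fn, fN, fR, gl, gn, gN, r1, r2, ?_, ?_, r5⟩
  · intro y; rw [← hQ]; exact r3 y
  · intro y; rw [← hQ]; exact r4 y

end W374.PK.CWarm
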