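import Pool.Agent.W841.PK.ChkS

/-!
Project PK: soundness of the lower step without reflection.
-/

set_option autoImplicit false

namespace W374.PK.StepG0

open Finset W841.PK.Chk
open W841.PK hiding dg

lemma gval_eq (gl gn gN i : ℕ) : gval gl gn gN i =
    if gl + gn ≤ i then 0 else dg gN (i - gl) := by
  unfold gval
  simp only [Nat.ble_eq]

lemma gval_le {gl gn gN : ℕ} (h : InvG gl gn gN) (i : ℕ) : gval gl gn gN i ≤ 2 ^ 40 :=
  (h.anti 0 i (Nat.zero_le _)).trans h.le

/-- values before the array -/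
lemma gval_lo {gl gn gN : ℕ} (h : InvG gl gn gN) {i : ℕ} (hi : i ≤ gl) :
    gval gl gn gN i = dg gN 0 := by
  have := h.one
  rw [gval_eq, if_neg (by omega)]
  have e : i - gl = 0 := by omega
  rw [e]

lemma AG_mem {gl gn gN : ℕ} (h : InvG gl gn gN) (i : ℤ) :
    0 ≤ AG gl gn gN i ∧ AG gl gn gN i ≤ 1 := by
  unfold AG
  refine ⟨by positivity, ?_⟩
  rw [div_le_one (by positivity)]
  have : gval gl gn gN (i + 65536).toNat ≤ 2 ^ 40 := gval_le h _
  exact_mod_cast this

/-- digits of the extended array -/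
lemma dg_ext (hd : S_Dig) {gl gn gN : ℕ} (h : InvG gl gn gN) (i : ℕ) :
    dg (dg gN 0 * rep 448 + 2 ^ (88 * 448) * gN) i = gval gl gn gN (gl + i - 448) := by
  obtain ⟨d1, d2, -, -, d5, -, -, d8, d9⟩ := hd
  have hlo := h.lo
  have h0 : dg gN 0 < 2 ^ 88 := d9 _ _
  rw [d1, d5 _ _ _ h0, d2]
  · by_cases h1 : i < 448
    · rw [if_pos h1, if_pos h1, add_zero, gval_lo h (by omega)]
    · rw [if_neg h1, if_neg h1, zero_add, gval_eq]
      have e : gl + i - 448 - gl = i - 448 := by omega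
      rw [e]
      by_cases h2 : gl + gn ≤ gl + i - 448
      · rw [if_pos h2, d8 gN gn _ h.lt (by omega)]
      · rw [if_neg h2]
  · intro i
    rw [d5 _ _ _ h0, d2]
    by_cases h1 : i < 448
    · rw [if_pos h1, if_pos h1, add_zero]; exact h0
    · rw [if_neg h1, if_neg h1, zero_add]; exact d9 _ _

/-- the integer convolution -/
def SS (gl gn gN : ℕ) (l : ℤ) : ℕ :=
  ∑ m ∈ range 449, dg KLn m * gval gl gn gN (l + 65536 + 224 - m).toNat

lemma dg_conv (hd : S_Dig) (hm : S_DigMul) (hr : S_DigRnd) (ht : S_TabK) {gl gn gN : ℕ}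
    (h : InvG gl gn gN) (i : ℕ) :
    dg (convG0 gn gN) i =
      if i < gn + 448 then SS gl gn gN ((gl : ℤ) - 224 + i - 65536) / 2 ^ 40 else 0 := by
  have hlo := h.lo
  unfold convG0
  rw [hr.1]
  by_cases hi : i < gn + 448
  · rw [if_pos hi, if_pos hi, hd.2.2.1]
    refine congrArg (fun t => t / 2 ^ 40) ?_
    have hX : ∀ i, dg (dg gN 0 * rep 448 + 2 ^ (88 * 448) * gN) i ≤ 2 ^ 40 := by
      intro i
      rw [dg_ext hd h]
      exact gval_le h _
    rw [hm _ KLn 449 (2 ^ 40) (i + 448) hX ht.2.1 (by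
      calc 2 ^ 40 * ∑ m ∈ range 449, dg KLn m ≤ 2 ^ 40 * 2 ^ 40 :=
            Nat.mul_le_mul_left _ ht.2.2.2.2.1
        _ < 2 ^ 88 := by norm_num)]
    unfold SS
    refine sum_congr rfl fun m hmm => ?_
    rw [mem_range] at hmm
    rw [if_pos (by omega), dg_ext hd h]
    have e : gl + (i + 448 - m) - 448 = ((gl : ℤ) - 224 + i - 65536 + 65536 + 224 - m).toNat := by
      omega
    rw [e]
  · rw [if_neg hi, if_neg hi]

lemma SS_le (ht : S_TabK) {gl gn gN : ℕ} (h : InvG gl gn gN) (l : ℤ) :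
    SS gl gn gN l / 2 ^ 40 ≤ 2 ^ 40 := by
  have h1 : SS gl gn gN l ≤ 2 ^ 40 * 2 ^ 40 := by
    unfold SS
    calc ∑ m ∈ range 449, dg KLn m * gval gl gn gN (l + 65536 + 224 - m).toNat ≤
          ∑ m ∈ range 449, dg KLn m * 2 ^ 40 :=
          sum_le_sum fun m _ => Nat.mul_le_mul_left _ (gval_le h _)
      _ = (∑ m ∈ range 449, dg KLn m) * 2 ^ 40 := by rw [sum_mul]
      _ ≤ 2 ^ 40 * 2 ^ 40 := Nat.mul_le_mul_right _ ht.2.2.2.2.1
  exact (Nat.div_le_div_right h1).trans (by norm_num)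

/-- constancy before the array -/
lemma SS_lo {gl gn gN : ℕ} (h : InvG gl gn gN) {l : ℤ} (hl : l + 65536 ≤ (gl : ℤ) - 224) :
    SS gl gn gN l = SS gl gn gN ((gl : ℤ) - 224 + (0 : ℕ) - 65536) := by
  unfold SS
  refine sum_congr rfl fun m _ => ?_
  rw [gval_lo h (by omega), gval_lo h (by omega)]

/-- the real convolution -/
lemma real_conv (gl gn gN : ℕ) (l : ℤ) :
    ∑ m ∈ Icc (-224 : ℤ) 224, ((dg KLn (m + 224).toNat : ℝ) / 2 ^ 40) * AG gl gn gN (l - m) =
      (SS gl gn gN l : ℝ) / 2 ^ 80 := by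
  unfold SS
  push_cast
  rw [sum_div]
  refine sum_nbij' (fun m => (m + 224).toNat) (fun k => (k : ℤ) - 224) ?_ ?_ ?_ ?_ ?_
  · intro m hmm
    rw [mem_Icc] at hmm
    rw [mem_range]
    omega
  · intro k hk
    rw [mem_range] at hk
    rw [mem_Icc]
    omega
  · intro m hmm
    rw [mem_Icc] at hmm
    omega
  · intro k hk
    rw [mem_range] at hk
    omega
  · intro m hmm
    rw [mem_Icc] at hmm
    unfold AG
    have e : (l - m + 65536).toNat = (l + 65536 + 224 - ((m + 224).toNat : ℤ)).toNat := by omega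
    rw [e]
    ring

lemma heat_nonneg {f : ℝ → ℝ} (hf : ∀ y, 0 ≤ f y) (θ y : ℝ) : 0 ≤ heat f θ y := by
  unfold heat
  refine MeasureTheory.integral_nonneg fun x => mul_nonneg (hf _) ?_
  unfold gd
  positivity

theorem stepg0 (hd : S_Dig) (hm : S_DigMul) (hr : S_DigRnd) (ht : S_TabK) (hp : S_Pl)
    (hs : S_SemLow) : S_StepG0 := by
  intro δ gl gn gN h tr hδ hG h11 hanti htr h1224 h0tr
  have hlo := hG.lo
  have hone := hG.one
  have hN := dg_conv hd hm hr ht hG
  set N2 := convG0 gn gN with hN2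
  have hh : h < gn + 448 := by
    by_contra hcon
    rw [hN, if_neg hcon] at h11
    omega
  have hN40 : ∀ i, dg N2 i ≤ 2 ^ 40 := by
    intro i
    rw [hN]
    split_ifs
    · exact SS_le ht hG _
    · positivity
  obtain ⟨-, -, d3, d4, -, d6, d7, -, -⟩ := hd
  have hdec : ∀ i, i < h → dg N2 (i + 1) ≤ dg N2 i := by
    intro i hi
    have h1 := hr.2 (N2 % 2 ^ (88 * (h + 1))) (h + 1) i (Nat.mod_lt _ (by positivity))
      (by
        intro j
        rw [d4]
        split_ifs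
        · exact lt_of_le_of_lt (hN40 j) (by norm_num)
        · positivity) hanti (by omega)
    rw [d4, d4, if_pos (by omega), if_pos (by omega)] at h1
    exact h1
  have hdec2 : ∀ i j, i ≤ j → j ≤ h → dg N2 j ≤ dg N2 i := by
    intro i j hij hj
    induction j, hij using Nat.le_induction with
    | base => exact le_rfl
    | succ j hij ih => exact (hdec j (by omega)).trans (ih (by omega))
  have hX : ∀ i, dg (N2 % 2 ^ (88 * h) - 11 * rep h) i = if i < h then dg N2 i - 11 else 0 := by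
    intro i
    rw [d6 _ _ _ _ (Nat.mod_lt _ (by positivity))]
    · by_cases hi : i < h
      · rw [if_pos hi, if_pos hi, d4, if_pos hi]
      · rw [if_neg hi, if_neg hi]
    · intro j hj
      rw [d4, if_pos hj]
      exact h11.trans (hdec2 j h hj.le le_rfl)
  have hXlt : N2 % 2 ^ (88 * h) - 11 * rep h < 2 ^ (88 * h) :=
    d7 _ _ _ (Nat.mod_lt _ (by positivity))
  set gN2 := (N2 % 2 ^ (88 * h) - 11 * rep h) / 2 ^ (88 * tr) with hgN2
  have hg2 : ∀ i, dg gN2 i = if i + tr < h then dg N2 (i + tr) - 11 else 0 := by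
    intro i
    rw [hgN2, d3, hX]
  have hgv : ∀ i, gval (gl - 224 + tr) (h - tr) gN2 i =
      if gl - 224 + h ≤ i then 0 else dg N2 (i - (gl - 224 + tr) + tr) - 11 := by
    intro i
    rw [gval_eq]
    by_cases hi : gl - 224 + h ≤ i
    · rw [if_pos (by omega), if_pos hi]
    · rw [if_neg (by omega), if_neg hi, hg2, if_pos (by omega)]
  have hInv : InvG (gl - 224 + tr) (h - tr) gN2 := by
    refine ⟨by omega, by omega, ?_, ?_, ?_⟩
    · rw [hgN2]
      apply Nat.div_lt_of_lt_mul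
      rw [← pow_add]
      have e : 88 * tr + 88 * (h - tr) = 88 * h := by omega
      rw [e]
      exact hXlt
    · intro i j hij
      rw [hgv, hgv]
      by_cases hj : gl - 224 + h ≤ j
      · rw [if_pos hj]; exact Nat.zero_le _
      · rw [if_neg hj, if_neg (by omega)]
        have := hdec2 (i - (gl - 224 + tr) + tr) (j - (gl - 224 + tr) + tr) (by omega) (by omega)
        omega
    · rw [hgv, if_neg (by omega)]
      have := hN40 (0 - (gl - 224 + tr) + tr)
      omega
  refine ⟨hInv, fun y => ?_⟩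
  -- the uncut array
  set A' : ℤ → ℝ := fun l => ((SS gl gn gN l / 2 ^ 40 : ℕ) : ℝ) / 2 ^ 40 - 11 / 2 ^ 40 with hA'
  have hpos := heat_nonneg (f := pl δ (AG gl gn gN))
    (by
      intro z
      have hAn : Antitone (AG gl gn gN) := by
        intro a b hab
        unfold AG
        refine div_le_div_of_nonneg_right ?_ (by positivity)
        exact_mod_cast hG.anti _ _ (Int.toNat_le_toNat (by omega))
      exact (((hp δ hδ).2.2.2.1 _ hAn (AG_mem hG)).2.1 z).1) ((32 * δ) ^ 2)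
  have hlow : ∀ z, (⌊y / δ⌋ : ℝ) * δ ≤ z → pl δ A' z ≤
      heat (pl δ (AG gl gn gN)) ((32 * δ) ^ 2) z := by
    refine hs δ (AG gl gn gN) A' (fun m => (dg KLn (m + 224).toNat : ℝ) / 2 ^ 40) ⌊y / δ⌋ hδ
      (AG_mem hG) ?_ ?_
    · intro m hmm
      have := ht.2.2.2.2.2.2 m hmm
      rw [div_le_iff₀ (by positivity)]
      exact this
    · intro l _
      rw [real_conv]
      rw [hA']
      simp only
      have h1 : ((SS gl gn gN l / 2 ^ 40 : ℕ) : ℝ) ≤ (SS gl gn gN l : ℝ) / 2 ^ 40 := by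
        have h5 := @Nat.cast_div_le ℝ _ _ _ (SS gl gn gN l) (2 ^ 40)
        have h0 : ((2 ^ 40 : ℕ) : ℝ) = 2 ^ 40 := by norm_num
        rw [h0] at h5
        exact h5
      have h2 : ((SS gl gn gN l / 2 ^ 40 : ℕ) : ℝ) / 2 ^ 40 ≤ (SS gl gn gN l : ℝ) / 2 ^ 80 := by
        calc _ ≤ (SS gl gn gN l : ℝ) / 2 ^ 40 / 2 ^ 40 :=
              div_le_div_of_nonneg_right h1 (by positivity)
          _ = _ := by rw [div_div, ← pow_add]
      have h3 : (1 : ℝ) / 10 ^ 11 ≤ 11 / 2 ^ 40 := by norm_num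
      linarith
  have hfl : (⌊y / δ⌋ : ℝ) * δ ≤ y := by
    have := Int.floor_le (y / δ)
    rwa [le_div_iff₀ hδ] at this
  refine (hp δ hδ).2.2.2.2.2.2.2 A' _ ⌊y / δ⌋ ((gl : ℤ) - 224 + h - 65536) _ hpos hlow ?_ ?_ ?_ y hfl
  · intro l _ hl
    rw [hA']
    unfold AG
    simp only
    rw [hgv, if_neg (by omega)]
    have key : dg N2 ((l + 65536).toNat - (gl - 224 + tr) + tr) ≤ SS gl gn gN l / 2 ^ 40 := by
      by_cases c1 : l + 65536 ≤ (gl : ℤ) - 224
      · rw [SS_lo hG c1]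
        have e1 : SS gl gn gN ((gl : ℤ) - 224 + (0 : ℕ) - 65536) / 2 ^ 40 = dg N2 0 := by
          rw [hN, if_pos (by omega)]
        rw [e1]
        have e2 : (l + 65536).toNat - (gl - 224 + tr) + tr = tr := by omega
        rw [e2]
        exact hdec2 0 tr (Nat.zero_le _) (by omega)
      · obtain ⟨i, hi⟩ : ∃ i : ℕ, l = (gl : ℤ) - 224 + i - 65536 :=
          ⟨(l + 65536 - ((gl : ℤ) - 224)).toNat, by omega⟩
        have e1 : SS gl gn gN l / 2 ^ 40 = dg N2 i := by
          rw [hN, if_pos (by omega), hi]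
        rw [e1]
        exact hdec2 i _ (by omega) (by omega)
    have k1 : 11 ≤ dg N2 ((l + 65536).toNat - (gl - 224 + tr) + tr) :=
      h11.trans (hdec2 _ h (by omega) le_rfl)
    rw [← sub_div]
    refine div_le_div_of_nonneg_right ?_ (by positivity)
    rw [Nat.cast_sub k1]
    have k2 : (dg N2 ((l + 65536).toNat - (gl - 224 + tr) + tr) : ℝ) ≤
        ((SS gl gn gN l / 2 ^ 40 : ℕ) : ℝ) := by exact_mod_cast key
    push_cast at k2 ⊢
    linarith
  · intro l hl
    unfold AG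
    rw [hgv, if_pos (by omega)]
    simp
  · rw [hA']
    simp only
    have e1 : SS gl gn gN ((gl : ℤ) - 224 + h - 65536) / 2 ^ 40 = dg N2 h := by
      rw [hN, if_pos hh]
    rw [e1, ← sub_div]
    have : (11 : ℝ) ≤ dg N2 h := by exact_mod_cast h11
    exact div_nonneg (by linarith) (by positivity)

end W374.PK.StepG0
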